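import Pool.Agent.Lib.MP_b18e8e_lc.Singular

/-!
# Groups with the descending chain condition on centralizers are not strange
-/

set_option autoImplicit false

namespace Pool.Agent.Lib.MP_b18e8e_lc.Chain

universe u

open Cardinal Set

variable {G : Type u} [Group G]

/-- The points `y` that are the middle term of a triple with the ends `s`, `t`. -/
def mid (s t : G) : Set G := {y | y * s⁻¹ * y = t}

/-- There is no increasing sequence of finite sets whose centralizers are strictly decreasing and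
of cardinality at least `θ`. -/
def LargeDCC (G : Type u) [Group G] (θ : Cardinal.{u}) : Prop :=
  ∀ A : ℕ → Finset G, (∀ n, A n ⊆ A (n + 1)) →
    (∀ n, Subgroup.centralizer (A (n + 1) : Set G) < Subgroup.centralizer (A n : Set G)) →
      ∃ n, #(Subgroup.centralizer (A n : Set G)) < θ

theorem LargeDCC.wf {θ : Cardinal.{u}} (h : LargeDCC G θ) :
    WellFounded (fun A B : Finset G => B ⊆ A ∧
      Subgroup.centralizer (A : Set G) < Subgroup.centralizer (B : Set G) ∧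
      θ ≤ #(Subgroup.centralizer (A : Set G))) := by
  rw [wellFounded_iff_isEmpty_descending_chain]
  refine ⟨fun f => ?_⟩
  obtain ⟨n, hn⟩ := h (fun n => f.1 (n + 1)) (fun n => (f.2 (n + 1)).1)
    (fun n => (f.2 (n + 1)).2.1)
  exact absurd (f.2 n).2.2 (not_le.2 hn)

theorem mem_mid_iff {s₀ t₀ s t y y₁ : G} (hy : y ∈ mid s₀ t₀) (hy₁ : y₁ ∈ mid s₀ t₀)
    (h1 : y₁ ∈ mid s t) : y ∈ mid s t ↔ (s⁻¹ * s₀) * (y₁⁻¹ * y) = (y₁⁻¹ * y) * (s⁻¹ * s₀) := by
  have e0 : y * s₀⁻¹ * y = y₁ * s₀⁻¹ * y₁ := hy.trans hy₁.symm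
  have e1 : y₁ * s⁻¹ * y₁ = t := h1
  have e2 : y₁ = s₀ * y₁⁻¹ * y * s₀⁻¹ * y := by
    calc y₁ = s₀ * y₁⁻¹ * (y₁ * s₀⁻¹ * y₁) := by group
      _ = s₀ * y₁⁻¹ * (y * s₀⁻¹ * y) := by rw [e0]
      _ = s₀ * y₁⁻¹ * y * s₀⁻¹ * y := by group
  change y * s⁻¹ * y = t ↔ _
  rw [← e1]
  constructor
  · intro h
    have h2 : y₁⁻¹ * y * s⁻¹ * y = s⁻¹ * y₁ := by
      calc y₁⁻¹ * y * s⁻¹ * y = y₁⁻¹ * (y * s⁻¹ * y) := by group
        _ = y₁⁻¹ * (y₁ * s⁻¹ * y₁) := by rw [h]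
        _ = s⁻¹ * y₁ := by group
    have h3 : y₁⁻¹ * y * s⁻¹ * y = s⁻¹ * (s₀ * y₁⁻¹ * y * s₀⁻¹ * y) := by
      rw [← e2]
      exact h2
    calc (s⁻¹ * s₀) * (y₁⁻¹ * y) = s⁻¹ * (s₀ * y₁⁻¹ * y * s₀⁻¹ * y) * y⁻¹ * s₀ := by group
      _ = y₁⁻¹ * y * s⁻¹ * y * y⁻¹ * s₀ := by rw [h3]
      _ = (y₁⁻¹ * y) * (s⁻¹ * s₀) := by group
  · intro h
    calc y * s⁻¹ * y = y₁ * ((y₁⁻¹ * y) * (s⁻¹ * s₀)) * s₀⁻¹ * y := by group
      _ = y₁ * ((s⁻¹ * s₀) * (y₁⁻¹ * y)) * s₀⁻¹ * y := by rw [h]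
      _ = y₁ * s⁻¹ * (s₀ * y₁⁻¹ * y * s₀⁻¹ * y) := by group
      _ = y₁ * s⁻¹ * y₁ := by rw [← e2]

/-- A subset with at least `θ` points in `Y` which each set `mid s t` contains or meets in fewer
than `θ` points of `Y`. -/
theorem exists_stable {ν : Cardinal.{u}} (h : LargeDCC G ν) (Y : Set G) {θ : Cardinal.{u}}
    (hν : ν ≤ θ) (h0 : θ ≠ 0) (hθ : θ ≤ #Y) : ∃ X : Set G, θ ≤ #(X ∩ Y : Set G) ∧
      ∀ s t, X ⊆ mid s t ∨ #(X ∩ Y ∩ mid s t : Set G) < θ := by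
  classical
  by_cases hF : ∃ s t, θ ≤ #(mid s t ∩ Y : Set G)
  · obtain ⟨s₁, t₁, h1⟩ := hF
    obtain ⟨A, ⟨s₀, t₀, y₁, hA⟩, hmin⟩ := h.wf.has_min
      {A : Finset G | ∃ s₀ t₀ y₁, θ ≤
        #((mid s₀ t₀ ∩ {y | y₁⁻¹ * y ∈ Subgroup.centralizer (A : Set G)}) ∩ Y : Set G)}
      ⟨∅, s₁, t₁, 1, by
        refine h1.trans (mk_le_mk_of_subset ?_)
        rintro y ⟨hy, hy'⟩
        refine ⟨⟨hy, ?_⟩, hy'⟩
        rw [mem_setOf_eq, Subgroup.mem_centralizer_iff]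
        intro a ha
        exact absurd ha (by simp)⟩
    refine ⟨mid s₀ t₀ ∩ {y | y₁⁻¹ * y ∈ Subgroup.centralizer (A : Set G)}, hA, fun s t => ?_⟩
    by_contra hcon
    push Not at hcon
    obtain ⟨hX, hc⟩ := hcon
    have hne : (mid s₀ t₀ ∩ {y | y₁⁻¹ * y ∈ Subgroup.centralizer (A : Set G)} ∩ Y ∩
        mid s t).Nonempty := by
      rw [nonempty_iff_ne_empty]
      intro he
      rw [he, mk_eq_zero] at hc
      exact h0 (le_zero_iff.1 hc)
    obtain ⟨y₂, ⟨⟨hy₂, hy₂'⟩, hy₂Y⟩, hy₂m⟩ := hne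
    have hsub : mid s₀ t₀ ∩ {y | y₁⁻¹ * y ∈ Subgroup.centralizer (A : Set G)} ∩ Y ∩ mid s t ⊆
        (mid s₀ t₀ ∩ {y | y₂⁻¹ * y ∈
          Subgroup.centralizer ((insert (s⁻¹ * s₀) A : Finset G) : Set G)}) ∩ Y := by
      rintro y ⟨⟨⟨hy, hy'⟩, hyY⟩, hym⟩
      refine ⟨⟨hy, ?_⟩, hyY⟩
      rw [mem_setOf_eq, Subgroup.mem_centralizer_iff]
      intro a ha
      rw [Finset.mem_coe, Finset.mem_insert] at ha
      rcases ha with ha | ha
      · rw [ha]
        exact (mem_mid_iff hy hy₂ hy₂m).1 hym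
      · have h2 : y₂⁻¹ * y ∈ Subgroup.centralizer (A : Set G) := by
          have := (Subgroup.centralizer (A : Set G)).mul_mem
            ((Subgroup.centralizer (A : Set G)).inv_mem hy₂') hy'
          convert this using 1
          group
        exact (Subgroup.mem_centralizer_iff.1 h2) a ha
    have hmem : insert (s⁻¹ * s₀) A ∈ {A : Finset G | ∃ s₀ t₀ y₁, θ ≤
        #((mid s₀ t₀ ∩ {y | y₁⁻¹ * y ∈ Subgroup.centralizer (A : Set G)}) ∩ Y : Set G)} :=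
      ⟨s₀, t₀, y₂, hc.trans (mk_le_mk_of_subset hsub)⟩
    have hle : Subgroup.centralizer ((insert (s⁻¹ * s₀) A : Finset G) : Set G) ≤
        Subgroup.centralizer (A : Set G) :=
      Subgroup.centralizer_le (Finset.coe_subset.2 (Finset.subset_insert _ _))
    have heq : Subgroup.centralizer ((insert (s⁻¹ * s₀) A : Finset G) : Set G) =
        Subgroup.centralizer (A : Set G) := by
      by_contra hne
      refine hmin _ hmem ⟨Finset.subset_insert _ _, lt_of_le_of_ne hle hne, ?_⟩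
      refine hν.trans ((hc.trans (mk_le_mk_of_subset hsub)).trans ?_)
      refine mk_le_of_injective (f := fun y => ⟨y₂⁻¹ * y.1, y.2.1.2⟩) ?_
      intro a b hab
      have h3 : y₂⁻¹ * a.1 = y₂⁻¹ * b.1 := congrArg Subtype.val hab
      exact Subtype.ext (mul_left_cancel h3)
    apply hX
    rintro y ⟨hy, hy'⟩
    rw [mem_mid_iff hy hy₂ hy₂m]
    have h2 : y₂⁻¹ * y ∈ Subgroup.centralizer (A : Set G) := by
      have := (Subgroup.centralizer (A : Set G)).mul_mem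
        ((Subgroup.centralizer (A : Set G)).inv_mem hy₂') hy'
      convert this using 1
      group
    rw [← heq, Subgroup.mem_centralizer_iff] at h2
    exact h2 _ (by simp)
  · push Not at hF
    refine ⟨univ, by rwa [univ_inter], fun s t => Or.inr ?_⟩
    rw [univ_inter, inter_comm]
    exact hF s t

open Classical in
/-- A recursion that avoids small sets. -/
theorem exists_seq {κ : Cardinal.{u}} (T : κ.ord.ToType → Set G)
    (Av : κ.ord.ToType → Set G → Set G)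
    (h : ∀ (ξ : κ.ord.ToType) (C : Set G), #C ≤ #(Iio ξ) → #(Av ξ C) < #(T ξ)) :
    ∃ x : κ.ord.ToType → G, ∀ ξ, x ξ ∈ T ξ ∧ x ξ ∉ Av ξ (x '' Iio ξ) := by
  let step : κ.ord.ToType → Set G → G := fun ξ C =>
    if h : ∃ g, g ∈ T ξ ∧ g ∉ Av ξ C then h.choose else 1
  let x : κ.ord.ToType → G := IsWellFounded.fix (· < ·)
    (fun ξ ih => step ξ {g | ∃ η, ∃ h : η < ξ, ih η h = g})
  have hx : ∀ ξ, x ξ = step ξ (x '' Iio ξ) := by
    intro ξ
    have h1 : x ξ = step ξ {g | ∃ η, ∃ _ : η < ξ, x η = g} :=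
      IsWellFounded.fix_eq (· < ·) (fun ξ (ih : ∀ η, η < ξ → G) =>
        step ξ {g | ∃ η, ∃ h : η < ξ, ih η h = g}) ξ
    rw [h1]
    congr 1
    ext g
    constructor
    · rintro ⟨η, h, rfl⟩
      exact ⟨η, h, rfl⟩
    · rintro ⟨η, h, rfl⟩
      exact ⟨η, h, rfl⟩
  refine ⟨x, fun ξ => ?_⟩
  have hex : ∃ g, g ∈ T ξ ∧ g ∉ Av ξ (x '' Iio ξ) := by
    by_contra hcon
    push Not at hcon
    exact absurd (mk_le_mk_of_subset hcon) (not_le.2 (h ξ _ mk_image_le))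
  rw [hx ξ]
  simp only [step, dif_pos hex]
  exact hex.choose_spec

/-- Criterion for the range of a sequence to be good. -/
theorem isGood_range {κ : Cardinal.{u}} (x : κ.ord.ToType → G)
    (hend : ∀ ξ η ζ, η < ξ → ζ < ξ → x ξ ≠ x η * (x ζ)⁻¹ * x η)
    (hmid : ∀ β α γ, α < β → γ < β → x β ∈ mid (x α) (x γ) → x α = x γ) :
    IsGood (range x) := by
  rintro _ ⟨α, rfl⟩ _ ⟨β, rfl⟩ _ ⟨γ, rfl⟩ h
  by_contra hne
  have hc : x γ = x β * (x α)⁻¹ * x β := by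
    rw [mul_assoc, h]
    group
  have ha : x α = x β * (x γ)⁻¹ * x β := by
    rw [hc]
    group
  have hαγ : α ≠ γ := fun h => hne (by rw [h])
  have hαβ : α ≠ β := by
    rintro rfl
    apply hne
    rw [hc]
    group
  have hγβ : γ ≠ β := by
    rintro rfl
    apply hne
    rw [ha]
    group
  rcases lt_or_gt_of_ne hαβ with h1 | h1
  · rcases lt_or_gt_of_ne hγβ with h2 | h2
    · exact hne (hmid β α γ h1 h2 hc.symm)
    · exact hend γ β α h2 (h1.trans h2) hc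
  · rcases lt_or_gt_of_ne hαγ with h3 | h3
    · exact hend γ β α (h1.trans h3) h3 hc
    · exact hend α β γ h1 h3 ha

theorem exists_good_regular {ν : Cardinal.{u}} (h : LargeDCC G ν) (Y : Set G) (hν : ν ≤ #Y)
    (hr : (#Y).IsRegular) : ∃ H ⊆ Y, IsGood H ∧ #H = #Y := by
  classical
  set κ := #Y with hκ
  have hκ0 : ℵ₀ ≤ κ := hr.aleph0_le
  obtain ⟨X, hX, hX'⟩ := exists_stable h Y (θ := κ) hν (aleph0_pos.trans_le hκ0).ne' le_rfl
  let Av : κ.ord.ToType → Set G → Set G := fun _ C =>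
    (C ∪ image2 (fun a b => a * b⁻¹ * a) C C) ∪
      ⋃ p : {p : C × C // ¬ X ⊆ mid p.1.1 p.2.1}, (X ∩ Y ∩ mid p.1.1.1 p.1.2.1)
  obtain ⟨x, hx⟩ := exists_seq (G := G) (κ := κ) (fun _ => X ∩ Y) Av (by
    intro ξ C hC
    have hCκ : #C < κ := lt_of_le_of_lt hC (by simpa using mk_Iio_lt ξ)
    have hCC : #(C × C) < κ := by
      rw [mk_prod, lift_id]
      exact mul_lt_of_lt hκ0 hCκ hCκ
    refine lt_of_lt_of_le ?_ hX
    refine (mk_union_le _ _).trans_lt (add_lt_of_lt hκ0 ?_ ?_)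
    · refine (mk_union_le _ _).trans_lt (add_lt_of_lt hκ0 hCκ ?_)
      rw [← image_prod]
      refine mk_image_le.trans_lt ?_
      rwa [mk_congr (Equiv.Set.prod _ _)]
    · rw [card_iUnion_lt_iff_forall_of_isRegular hr
        ((mk_subtype_le _).trans_lt hCC)]
      rintro ⟨p, hp⟩
      exact (hX' _ _).resolve_left hp)
  have hnot : ∀ ξ η, η < ξ → x ξ ≠ x η := by
    intro ξ η h he
    exact (hx ξ).2 (Or.inl (Or.inl ⟨η, h, he.symm⟩))
  have hinj : Function.Injective x := by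
    intro η ξ h
    rcases lt_trichotomy η ξ with h1 | h1 | h1
    · exact (hnot ξ η h1 h.symm).elim
    · exact h1
    · exact (hnot η ξ h1 h).elim
  refine ⟨range x, ?_, isGood_range x ?_ ?_, ?_⟩
  · rintro _ ⟨ξ, rfl⟩
    exact (hx ξ).1.2
  · intro ξ η ζ h1 h2 he
    exact (hx ξ).2 (Or.inl (Or.inr ⟨x η, ⟨η, h1, rfl⟩, x ζ, ⟨ζ, h2, rfl⟩, he.symm⟩))
  · intro β α γ h1 h2 hm
    by_cases hs : X ⊆ mid (x α) (x γ)
    · have h3 : x α * (x α)⁻¹ * x α = x γ := hs (hx α).1.1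
      rw [mul_inv_cancel, one_mul] at h3
      exact h3
    · exfalso
      apply (hx β).2
      refine Or.inr (mem_iUnion.2 ⟨⟨(⟨x α, ⟨α, h1, rfl⟩⟩, ⟨x γ, ⟨γ, h2, rfl⟩⟩), hs⟩, ?_⟩)
      exact ⟨(hx β).1, hm⟩
  · rw [mk_range_eq x hinj, mk_ord_toType]

theorem exists_good_singular {ν : Cardinal.{u}} (h : LargeDCC G ν) (Y : Set G) (hν : ν < #Y)
    (hs : (#Y).IsSingular) : ∃ H ⊆ Y, IsGood H ∧ #H = #Y := by
  classical
  set κ := #Y with hκ
  obtain ⟨ι, t, ht1, ht2, ht3, ht4, ht5⟩ : ∃ (ι : Type u) (t : ι → Cardinal.{u}),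
      (∀ i, t i < κ) ∧ (∀ i, #ι ≤ t i) ∧ (∀ i, ℵ₀ ≤ t i) ∧ (∀ μ < κ, ∃ i, μ ≤ t i) ∧
        ∀ i, ν ≤ t i := by
    obtain ⟨ι, t, ht1, ht2, ht3, ht4⟩ := Singular.exists_cofinal hs
    refine ⟨ι, fun i => max (t i) ν, fun i => max_lt (ht1 i) hν,
      fun i => (ht2 i).trans (le_max_left _ _), fun i => (ht3 i).trans (le_max_left _ _),
      fun μ hμ => ?_, fun i => le_max_right _ _⟩
    obtain ⟨i, hi⟩ := ht4 μ hμ
    exact ⟨i, hi.trans (le_max_left _ _)⟩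
  have hidx : ∀ ξ : κ.ord.ToType, ∃ i, #(Iio ξ) ≤ t i := fun ξ =>
    ht4 (#(Iio ξ)) (by simpa using mk_Iio_lt ξ)
  choose idx hidx using hidx
  have hX : ∀ i, ∃ X : Set G, Order.succ (t i) ≤ #(X ∩ Y : Set G) ∧
      ∀ a b, X ⊆ mid a b ∨ #(X ∩ Y ∩ mid a b : Set G) < Order.succ (t i) := fun i =>
    exists_stable h Y ((ht5 i).trans (Order.le_succ (t i))) (Order.succ_ne_bot (t i))
      (Order.succ_le_of_lt (ht1 i))
  choose X hX hX' using hX
  have hw : ∀ i, ∃ w, w ∈ X i := by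
    intro i
    have h1 : (X i ∩ Y).Nonempty := by
      rw [nonempty_iff_ne_empty]
      intro he
      have := hX i
      rw [he, mk_eq_zero] at this
      exact Order.succ_ne_bot (t i) (le_zero_iff.1 this)
    exact ⟨h1.choose, h1.choose_spec.1⟩
  choose w hw using hw
  let Av : κ.ord.ToType → Set G → Set G := fun ξ C =>
    ((C ∪ image2 (fun a b => a * b⁻¹ * a) C C) ∪ ⋃ i, (fun a => w i * a⁻¹ * w i) '' C) ∪
      ⋃ p : {p : C × C // ¬ X (idx ξ) ⊆ mid p.1.1 p.2.1},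
        (X (idx ξ) ∩ Y ∩ mid p.1.1.1 p.1.2.1)
  obtain ⟨x, hx⟩ := exists_seq (G := G) (κ := κ) (fun ξ => X (idx ξ) ∩ Y) Av (by
    intro ξ C hC
    have hτ := ht3 (idx ξ)
    have hCτ : #C ≤ t (idx ξ) := hC.trans (hidx ξ)
    have hCC : #(C × C) ≤ t (idx ξ) := by
      rw [mk_prod, lift_id]
      exact (mul_le_mul' hCτ hCτ).trans (mul_eq_self hτ).le
    refine lt_of_lt_of_le (Order.lt_succ_of_le ?_) (hX (idx ξ))
    refine (mk_union_le _ _).trans (add_le_of_le hτ ?_ ?_)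
    · refine (mk_union_le _ _).trans (add_le_of_le hτ ?_ ?_)
      · refine (mk_union_le _ _).trans (add_le_of_le hτ hCτ ?_)
        rw [← image_prod]
        refine mk_image_le.trans ?_
        rwa [mk_congr (Equiv.Set.prod _ _)]
      · refine (mk_iUnion_le _).trans ?_
        refine (mul_le_mul' (ht2 (idx ξ)) (ciSup_le' fun i => ?_)).trans (mul_eq_self hτ).le
        exact mk_image_le.trans hCτ
    · refine (mk_iUnion_le _).trans ?_
      refine (mul_le_mul' ((mk_subtype_le _).trans hCC) (ciSup_le' fun p => ?_)).trans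
        (mul_eq_self hτ).le
      exact Order.lt_succ_iff.1 ((hX' (idx ξ) _ _).resolve_left p.2))
  have hnot : ∀ ξ η, η < ξ → x ξ ≠ x η := by
    intro ξ η h he
    exact (hx ξ).2 (Or.inl (Or.inl (Or.inl ⟨η, h, he.symm⟩)))
  have hinj : Function.Injective x := by
    intro η ξ h
    rcases lt_trichotomy η ξ with h1 | h1 | h1
    · exact (hnot ξ η h1 h.symm).elim
    · exact h1
    · exact (hnot η ξ h1 h).elim
  have hpart : ∀ ξ η i, η < ξ → x ξ ≠ w i * (x η)⁻¹ * w i := by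
    intro ξ η i h1 he
    refine (hx ξ).2 (Or.inl (Or.inr (mem_iUnion.2 ⟨i, x η, ⟨η, h1, rfl⟩, he.symm⟩)))
  refine ⟨range x, ?_, isGood_range x ?_ ?_, ?_⟩
  · rintro _ ⟨ξ, rfl⟩
    exact (hx ξ).1.2
  · intro ξ η ζ h1 h2 he
    exact (hx ξ).2 (Or.inl (Or.inl (Or.inr ⟨x η, ⟨η, h1, rfl⟩, x ζ, ⟨ζ, h2, rfl⟩, he.symm⟩)))
  · intro β α γ h1 h2 hm
    by_cases hs : X (idx β) ⊆ mid (x α) (x γ)
    · have h3 : w (idx β) * (x α)⁻¹ * w (idx β) = x γ := hs (hw (idx β))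
      rcases lt_trichotomy α γ with h4 | h4 | h4
      · exact (hpart γ α _ h4 h3.symm).elim
      · rw [h4]
      · refine (hpart α γ (idx β) h4 ?_).elim
        rw [← h3]
        group
    · exfalso
      apply (hx β).2
      refine Or.inr (mem_iUnion.2 ⟨⟨(⟨x α, ⟨α, h1, rfl⟩⟩, ⟨x γ, ⟨γ, h2, rfl⟩⟩), hs⟩, ?_⟩)
      exact ⟨(hx β).1, hm⟩
  · rw [mk_range_eq x hinj, mk_ord_toType]

/-- If `Y` is an infinite subset and there is no increasing sequence of finite sets with strictly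
decreasing centralizers of cardinality at least `ν`, then `Y` contains a good subset of the same
cardinality. -/
theorem exists_good {ν : Cardinal.{u}} (h : LargeDCC G ν) (Y : Set G) (hY : Y.Infinite)
    (hν : ν < #Y ∨ ν = #Y ∧ (#Y).IsRegular) : ∃ H ⊆ Y, IsGood H ∧ #H = #Y := by
  have h0 : ℵ₀ ≤ #Y := by
    have := hY.to_subtype
    exact aleph0_le_mk Y
  by_cases hr : (#Y).IsRegular
  · refine exists_good_regular h Y ?_ hr
    rcases hν with hν | hν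
    · exact hν.le
    · exact hν.1.le
  · refine exists_good_singular h Y ?_ ⟨h0, fun he => hr ⟨h0, he.symm.le⟩⟩
    rcases hν with hν | hν
    · exact hν
    · exact absurd hν.2 hr

end Pool.Agent.Lib.MP_b18e8e_lc.Chain
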