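import Mathlib

/-!
# Good subsets and strange groups
-/

set_option autoImplicit false

namespace Pool.Agent.Lib.MP_b18e8e_lc

universe u

open Cardinal

/-- A subset `H` of a group is good if for all `x, y, z ∈ H` the equation `x⁻¹ y = y⁻¹ z` forces
`x = z`. -/
def IsGood {G : Type u} [Group G] (H : Set G) : Prop :=
  ∀ x ∈ H, ∀ y ∈ H, ∀ z ∈ H, x⁻¹ * y = y⁻¹ * z → x = z

/-- There is a strange group of cardinality `κ`, that is, a group of cardinality `κ` without a
good subset of cardinality `κ`. -/
def ExistsStrange (κ : Cardinal.{u}) : Prop :=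
  ∃ (G : Type u) (_ : Group G), #G = κ ∧ ∀ H : Set G, IsGood H → #H ≠ κ

end Pool.Agent.Lib.MP_b18e8e_lc
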