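import Mathlib

/-!
# Complete saturated ideals
-/

set_option autoImplicit false

namespace Pool.Agent.Lib.MP_b18e8e_lc

universe u

open Cardinal Set

/-- `I` is a proper ideal of subsets of `X` which contains all singletons, is `κ`-complete
(closed under unions of fewer than `κ` members) and `κ`-saturated (every family of pairwise
disjoint subsets of `X` outside `I` has fewer than `κ` members), where `κ` is the cardinality
of `X`. -/
structure IsSaturatedIdeal {X : Type u} (I : Set (Set X)) : Prop where
  univ_notMem : (univ : Set X) ∉ I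
  mono : ∀ A ∈ I, ∀ B ⊆ A, B ∈ I
  singleton_mem : ∀ x : X, {x} ∈ I
  complete : ∀ S ⊆ I, #S < #X → ⋃₀ S ∈ I
  saturated : ∀ D : Set (Set X), (∀ A ∈ D, A ∉ I) → D.PairwiseDisjoint id → #D < #X

end Pool.Agent.Lib.MP_b18e8e_lc
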