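import Pool.Agent.Lib.MP_b18e8e_lc.Defs
import Pool.Agent.Lib.MP_b18e8e_lc.IdealDefs

/-!
# Cardinals with a complete saturated ideal
-/

set_option autoImplicit false

namespace Pool.Agent.Lib.MP_b18e8e_lc

universe u

open Cardinal Set

theorem IsSaturatedIdeal.transport {X Y : Type u} {I : Set (Set X)} (h : IsSaturatedIdeal I)
    (e : X ≃ Y) : IsSaturatedIdeal {A : Set Y | e ⁻¹' A ∈ I} := by
  have hc : #X = #Y := Cardinal.mk_congr e
  refine ⟨?_, ?_, ?_, ?_, ?_⟩
  · simpa using h.univ_notMem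
  · intro A hA B hB
    exact h.mono _ hA _ (preimage_mono hB)
  · intro y
    have : e ⁻¹' {y} = {e.symm y} := by
      ext x
      simp [Equiv.eq_symm_apply]
    change e ⁻¹' {y} ∈ I
    rw [this]
    exact h.singleton_mem _
  · intro S hS hlt
    change e ⁻¹' (⋃₀ S) ∈ I
    have h1 : e ⁻¹' (⋃₀ S) = ⋃₀ ((fun A => e ⁻¹' A) '' S) := by
      ext x
      simp
    rw [h1]
    refine h.complete _ ?_ ?_
    · rintro _ ⟨A, hA, rfl⟩
      exact hS hA
    · rw [hc]
      exact lt_of_le_of_lt mk_image_le hlt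
  · intro D hD hdis
    have h1 := h.saturated ((fun A => e ⁻¹' A) '' D) ?_ ?_
    · rw [hc] at h1
      refine lt_of_eq_of_lt ?_ h1
      exact (mk_image_eq (Function.Surjective.preimage_injective e.surjective)).symm
    · rintro _ ⟨A, hA, rfl⟩
      exact hD A hA
    · rintro _ ⟨A, hA, rfl⟩ _ ⟨B, hB, rfl⟩ hne
      have : A ≠ B := fun h => hne (by rw [h])
      exact (hdis hA hB this).preimage e

variable {X : Type u} {I : Set (Set X)}

theorem IsSaturatedIdeal.iUnion_mem (h : IsSaturatedIdeal I) {ι : Type u} (hι : #ι < #X)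
    (f : ι → Set X) (hf : ∀ i, f i ∈ I) : (⋃ i, f i) ∈ I := by
  rw [← sUnion_range]
  refine h.complete _ ?_ (lt_of_le_of_lt mk_range_le hι)
  rintro _ ⟨i, rfl⟩
  exact hf i

theorem IsSaturatedIdeal.mem_of_card (h : IsSaturatedIdeal I) {A : Set X} (hA : #A < #X) :
    A ∈ I := by
  have : A = ⋃ a : A, {a.1} := by
    ext x
    simp
  rw [this]
  exact h.iUnion_mem hA _ fun a => h.singleton_mem _

theorem IsSaturatedIdeal.union_mem (h : IsSaturatedIdeal I) (hX : ℵ₀ ≤ #X) {A B : Set X}
    (hA : A ∈ I) (hB : B ∈ I) : A ∪ B ∈ I := by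
  have h1 : A ∪ B = ⋃ i : ULift.{u} Bool, if i.down then A else B := by
    ext x
    simp only [mem_union, mem_iUnion]
    constructor
    · rintro (h | h)
      · exact ⟨⟨true⟩, by simpa using h⟩
      · exact ⟨⟨false⟩, by simpa using h⟩
    · rintro ⟨⟨i⟩, hi⟩
      cases i
      · right; simpa using hi
      · left; simpa using hi
  rw [h1]
  refine h.iUnion_mem ?_ _ ?_
  · exact lt_of_lt_of_le (Cardinal.lt_aleph0_of_finite _) hX
  · rintro ⟨i⟩
    cases i
    · simpa using hB
    · simpa using hA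

/-- The set of the middle terms of the pair `(a, b)`. -/
def mid {G : Type u} [Group G] (a b : G) : Set G := {y | y * a⁻¹ * y = b}

theorem mid_symm {G : Type u} [Group G] (a b : G) : mid a b = mid b a := by
  ext y
  simp only [mid, mem_ofPred_eq]
  constructor
  · rintro rfl
    group
  · rintro rfl
    group

theorem exists_good_of_ideal {G : Type u} [Group G] (hG : ℵ₀ ≤ #G) {I : Set (Set G)}
    (h : IsSaturatedIdeal I) : ∃ H : Set G, IsGood H ∧ #H = #G := by
  classical
  -- maximal good sets all of whose pairs have few middle terms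
  obtain ⟨H, hH⟩ := zorn_subset {H : Set G | IsGood H ∧ ∀ a ∈ H, ∀ b ∈ H, a ≠ b → mid a b ∈ I}
    (by
      intro c hc hchain
      refine ⟨⋃₀ c, ⟨?_, ?_⟩, fun s hs => subset_sUnion_of_mem hs⟩
      · rintro x ⟨s, hs, hx⟩ y ⟨t, ht, hy⟩ z ⟨r, hr, hz⟩ hxyz
        obtain ⟨u, hu, hsu, htu⟩ : ∃ u ∈ c, s ⊆ u ∧ t ⊆ u := by
          rcases hchain.total hs ht with hst | hst
          · exact ⟨t, ht, hst, subset_rfl⟩
          · exact ⟨s, hs, subset_rfl, hst⟩
        obtain ⟨v, hv, huv, hrv⟩ : ∃ v ∈ c, u ⊆ v ∧ r ⊆ v := by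
          rcases hchain.total hu hr with hst | hst
          · exact ⟨r, hr, hst, subset_rfl⟩
          · exact ⟨u, hu, subset_rfl, hst⟩
        exact (hc hv).1 x (huv (hsu hx)) y (huv (htu hy)) z (hrv hz) hxyz
      · rintro x ⟨s, hs, hx⟩ y ⟨t, ht, hy⟩ hxy
        obtain ⟨u, hu, hsu, htu⟩ : ∃ u ∈ c, s ⊆ u ∧ t ⊆ u := by
          rcases hchain.total hs ht with hst | hst
          · exact ⟨t, ht, hst, subset_rfl⟩
          · exact ⟨s, hs, subset_rfl, hst⟩
        exact (hc hu).2 x (hsu hx) y (htu hy) hxy)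
  refine ⟨H, hH.prop.1, ?_⟩
  by_contra hne
  have hlt : #H < #G := lt_of_le_of_ne (mk_set_le H) hne
  have hlt2 : #(H × H) < #G := by
    rw [mk_prod, lift_id]
    exact mul_lt_of_lt hG hlt hlt
  -- each point has few partners with many common middle terms
  have hP : ∀ a : G, {b | mid a b ∉ I} ∈ I := by
    intro a
    apply h.mem_of_card
    have h1 := h.saturated (mid a '' {b | mid a b ∉ I}) ?_ ?_
    · refine lt_of_eq_of_lt ?_ h1
      refine (mk_image_eq_of_injOn _ _ ?_).symm
      intro b hb b' hb' hbb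
      have hne : (mid a b).Nonempty := by
        rw [nonempty_iff_ne_empty]
        intro he
        apply hb
        rw [he]
        exact h.mem_of_card (by simpa using lt_of_lt_of_le aleph0_pos hG)
      obtain ⟨y, hy⟩ := hne
      have hy' : y ∈ mid a b' := by
        have : mid a b = mid a b' := hbb
        rwa [← this]
      exact hy.symm.trans hy'
    · rintro _ ⟨b, hb, rfl⟩
      exact hb
    · rintro _ ⟨b, hb, rfl⟩ _ ⟨b', hb', rfl⟩ hne
      rw [Function.onFun, id, id, Set.disjoint_left]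
      intro y hy hy'
      apply hne
      have : b = b' := hy.symm.trans hy'
      rw [this]
  -- the set of the points which cannot be added is in the ideal
  have hB : (((⋃ p : H × H, if mid p.1.1 p.2.1 ∈ I then mid p.1.1 p.2.1 else ∅) ∪
      (⋃ a : H, {b | mid a.1 b ∉ I})) ∪
      ((range fun p : H × H => p.1.1 * p.2.1⁻¹ * p.1.1) ∪ H)) ∈ I := by
    refine h.union_mem hG (h.union_mem hG ?_ ?_) (h.union_mem hG ?_ ?_)
    · refine h.iUnion_mem hlt2 _ fun p => ?_
      split_ifs with hp
      · exact hp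
      · exact h.mem_of_card (by simpa using lt_of_lt_of_le aleph0_pos hG)
    · exact h.iUnion_mem hlt _ fun a => hP a.1
    · exact h.mem_of_card (lt_of_le_of_lt mk_range_le hlt2)
    · exact h.mem_of_card hlt
  obtain ⟨x, hx⟩ : ∃ x, x ∉ (((⋃ p : H × H, if mid p.1.1 p.2.1 ∈ I then mid p.1.1 p.2.1 else ∅) ∪
      (⋃ a : H, {b | mid a.1 b ∉ I})) ∪
      ((range fun p : H × H => p.1.1 * p.2.1⁻¹ * p.1.1) ∪ H)) := by
    by_contra hcon
    push Not at hcon
    exact h.univ_notMem (by rwa [← eq_univ_of_forall hcon])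
  simp only [mem_union, not_or] at hx
  obtain ⟨⟨hx1, hx2⟩, hx3, hx4⟩ := hx
  have hx1' : ∀ a ∈ H, ∀ b ∈ H, mid a b ∈ I → x ∉ mid a b := by
    intro a ha b hb hab hxab
    apply hx1
    rw [mem_iUnion]
    refine ⟨⟨⟨a, ha⟩, ⟨b, hb⟩⟩, ?_⟩
    rw [if_pos hab]
    exact hxab
  have hx2' : ∀ a ∈ H, mid a x ∈ I := by
    intro a ha
    by_contra hcon
    exact hx2 (mem_iUnion.2 ⟨⟨a, ha⟩, hcon⟩)
  have hx3' : ∀ a ∈ H, ∀ b ∈ H, x ≠ a * b⁻¹ * a := by
    intro a ha b hb hab
    exact hx3 ⟨⟨⟨a, ha⟩, ⟨b, hb⟩⟩, hab.symm⟩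
  have hQ : insert x H ∈ {H : Set G | IsGood H ∧ ∀ a ∈ H, ∀ b ∈ H, a ≠ b → mid a b ∈ I} := by
    constructor
    · intro a ha b hb c hc habc
      by_contra hac
      have hc' : c = b * a⁻¹ * b := by
        rw [mul_assoc, habc]
        group
      rcases ha with rfl | ha
      · rcases hb with rfl | hb
        · apply hac
          rw [hc']
          group
        · rcases hc with rfl | hc
          · exact hac rfl
          · refine hx3' b hb c hc ?_
            rw [hc']
            group
      · rcases hb with rfl | hb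
        · rcases hc with rfl | hc
          · apply hac
            have h1 : (1 : G) = a⁻¹ * c := by
              have := congrArg (fun t => c⁻¹ * t) hc'
              simp only [inv_mul_cancel] at this
              rw [this]
              group
            have h2 : a = a * (a⁻¹ * c) := by rw [← h1, mul_one]
            rw [h2]
            group
          · exact hx1' a ha c hc (hH.prop.2 a ha c hc hac) hc'.symm
        · rcases hc with rfl | hc
          · exact hx3' b hb a ha hc'
          · exact hac (hH.prop.1 a ha b hb c hc habc)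
    · intro a ha b hb hab
      rcases ha with rfl | ha
      · rcases hb with rfl | hb
        · exact (hab rfl).elim
        · rw [mid_symm]
          exact hx2' b hb
      · rcases hb with rfl | hb
        · exact hx2' a ha
        · exact hH.prop.2 a ha b hb hab
  have := hH.le_of_ge hQ (subset_insert x H)
  exact hx4 (this (mem_insert x H))

/-- If an infinite cardinal `κ` carries a proper `κ`-complete `κ`-saturated ideal containing the
singletons, then there is no strange group of cardinality `κ`. -/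
theorem not_existsStrange_of_ideal (κ : Cardinal.{u}) (hκ : ℵ₀ ≤ κ)
    (h : ∃ (X : Type u) (I : Set (Set X)), #X = κ ∧ IsSaturatedIdeal I) : ¬ ExistsStrange κ := by
  rintro ⟨G, _, hG, hstr⟩
  obtain ⟨X, I, hX, hI⟩ := h
  obtain ⟨e⟩ : Nonempty (X ≃ G) := Cardinal.eq.1 (hX.trans hG.symm)
  obtain ⟨H, hH, hc⟩ := exists_good_of_ideal (by rwa [hG]) (hI.transport e)
  exact hstr H hH (hc.trans hG)

end Pool.Agent.Lib.MP_b18e8e_lc
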