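import Pool.Agent.Lib.MP_b18e8e_lc.Chain

/-!
# Long chains of large centralizers in strange groups
-/

set_option autoImplicit false

namespace Pool.Agent.Lib.MP_b18e8e_lc.Long

universe u

open Cardinal Set
open Pool.Agent.Lib.MP_b18e8e_lc.Chain (mid mem_mid_iff)

variable {G : Type u} [Group G]

/-- The points obtained from two points of `H`. -/
def ends (H : Set G) : Set G := image2 (fun a b => a * b⁻¹ * a) H H

/-- A maximal good subset. -/
theorem exists_max (X : Set G) : ∃ H ⊆ X, IsGood H ∧ ∀ y ∈ X, y ∉ H → y ∉ ends H →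
    ∃ s ∈ H, ∃ t ∈ H, s ≠ t ∧ y ∈ mid s t := by
  obtain ⟨H, hH⟩ := zorn_subset {H : Set G | H ⊆ X ∧ IsGood H} (by
    intro c hc hchain
    refine ⟨⋃₀ c, ⟨sUnion_subset fun H hH => (hc hH).1, ?_⟩, fun H hH => subset_sUnion_of_mem hH⟩
    rintro x ⟨A, hA, hx⟩ y ⟨B, hB, hy⟩ z ⟨C, hC, hz⟩ he
    obtain ⟨D, hD, hAD, hBD⟩ : ∃ D ∈ c, A ⊆ D ∧ B ⊆ D := by
      rcases hchain.total hA hB with h | h
      · exact ⟨B, hB, h, Subset.rfl⟩
      · exact ⟨A, hA, Subset.rfl, h⟩
    obtain ⟨E, hE, hDE, hCE⟩ : ∃ E ∈ c, D ⊆ E ∧ C ⊆ E := by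
      rcases hchain.total hD hC with h | h
      · exact ⟨C, hC, h, Subset.rfl⟩
      · exact ⟨D, hD, Subset.rfl, h⟩
    exact (hc hE).2 x (hDE (hAD hx)) y (hDE (hBD hy)) z (hCE hz) he)
  refine ⟨H, hH.prop.1, hH.prop.2, fun y hy hyH hyE => ?_⟩
  have hnot : ¬ IsGood (insert y H) := by
    intro hg
    have h1 : insert y H ⊆ H := hH.le_of_ge (y := insert y H)
      ⟨insert_subset hy hH.prop.1, hg⟩ (subset_insert y H)
    exact hyH (h1 (mem_insert y H))
  unfold IsGood at hnot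
  push Not at hnot
  obtain ⟨x, hx, m, hm, z, hz, he, hne⟩ := hnot
  have hc : z = m * x⁻¹ * m := by
    rw [mul_assoc, he]
    group
  have ha : x = m * z⁻¹ * m := by
    rw [hc]
    group
  have hxm : x ≠ m := by
    rintro rfl
    apply hne
    rw [hc]
    group
  have hzm : z ≠ m := by
    rintro rfl
    apply hne
    rw [ha]
    group
  rcases hm with rfl | hm
  · have hx' : x ∈ H := hx.resolve_left hxm
    have hz' : z ∈ H := hz.resolve_left hzm
    exact ⟨x, hx', z, hz', hne, hc.symm⟩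
  · exfalso
    rcases hx with rfl | hx
    · rcases hz with rfl | hz
      · exact hne rfl
      · exact hyE ⟨m, hm, z, hz, ha.symm⟩
    · rcases hz with rfl | hz
      · exact hyE ⟨m, hm, x, hx, hc.symm⟩
      · exact hne (hH.prop.2 x hx m hm z hz he)

/-- The closed set given by a partial sequence of pairs. -/
def cl {ι : Type u} (q : ι → Option (G × G)) : Set G :=
  {z | ∀ i, ∀ p ∈ q i, z ∈ mid p.1 p.2}

open Classical in
/-- The next pair for `y` in the closed set `X`. -/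
noncomputable def next (Y : Set G) (Hm : Set G → Set G) (X : Set G) (y : G) :
    Option (G × G) :=
  if h : #Y ≤ #(X ∩ Y : Set G) ∧ ∃ p : G × G, p.1 ∈ Hm (X ∩ Y) ∧ p.2 ∈ Hm (X ∩ Y) ∧
      p.1 ≠ p.2 ∧ y ∈ mid p.1 p.2 then some h.2.choose else none

theorem next_some {Y : Set G} {Hm : Set G → Set G} {X : Set G} {y : G} {p : G × G}
    (h : next Y Hm X y = some p) : #Y ≤ #(X ∩ Y : Set G) ∧ p.1 ∈ Hm (X ∩ Y) ∧
      p.2 ∈ Hm (X ∩ Y) ∧ p.1 ≠ p.2 ∧ y ∈ mid p.1 p.2 := by
  unfold next at h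
  split_ifs at h with h1
  rw [Option.some_inj] at h
  rw [← h]
  exact ⟨h1.1, h1.2.choose_spec⟩

theorem exists_chain (Y : Set G) (hr : (#Y).IsRegular) (μ : Cardinal.{u}) (hμ : ℵ₀ ≤ μ)
    (hμY : μ < #Y) (hpow : ∀ a < #Y, ∀ b < μ, a ^ b < #Y)
    (hY : ¬ ∃ H ⊆ Y, IsGood H ∧ #H = #Y) :
    ∃ A : μ.ord.ToType → Set G,
      (∀ α β, α < β → A α ⊆ A β ∧ Subgroup.centralizer (A β) < Subgroup.centralizer (A α)) ∧
        ∀ α, #(A α) < μ ∧ #Y ≤ #(Subgroup.centralizer (A α)) := by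
  classical
  set κ := #Y with hκ
  have hκ0 : ℵ₀ ≤ κ := hr.aleph0_le
  choose Hm hHm1 hHm2 hHm3 using exists_max (G := G)
  have hHc : ∀ X : Set G, #(Hm (X ∩ Y)) < κ := by
    intro X
    have h1 : Hm (X ∩ Y) ⊆ Y := (hHm1 _).trans inter_subset_right
    refine lt_of_le_of_ne (mk_le_mk_of_subset h1) ?_
    intro he
    exact hY ⟨_, h1, hHm2 _, he⟩
  have hHH : ∀ X : Set G, #(Hm (X ∩ Y) ×ˢ Hm (X ∩ Y) : Set (G × G)) < κ := by
    intro X
    rw [mk_congr (Equiv.Set.prod _ _), mk_prod, lift_id]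
    exact mul_lt_of_lt hκ0 (hHc X) (hHc X)
  have hIio : ∀ α : μ.ord.ToType, #(Iio α) < μ := fun α => by simpa using mk_Iio_lt α
  let Λ := μ.ord.ToType
  let seq : G → Λ → Option (G × G) := fun y => IsWellFounded.fix (· < ·)
    (fun (α : Λ) ih => next Y Hm {z | ∀ β, ∀ h : β < α, ∀ p ∈ ih β h, z ∈ mid p.1 p.2} y)
  let X : G → Λ → Set G := fun y α => {z | ∀ β, β < α → ∀ p ∈ seq y β, z ∈ mid p.1 p.2}
  have hseq : ∀ y α, seq y α = next Y Hm (X y α) y := by
    intro y α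
    exact IsWellFounded.fix_eq (· < ·) (fun (α : Λ) (ih : ∀ β, β < α → Option (G × G)) =>
      next Y Hm {z | ∀ β, ∀ h : β < α, ∀ p ∈ ih β h, z ∈ mid p.1 p.2} y) α
  have hyX : ∀ y α, y ∈ X y α := by
    intro y α β _ p hp
    rw [hseq] at hp
    exact (next_some hp).2.2.2.2
  -- the number of closed sets of each level
  have hN : ∀ α, #(range (fun y : G => X y α)) < κ := by
    intro α
    induction α using WellFoundedLT.induction with
    | ind α ih =>
      let W : Set (Option (G × G)) := ⋃ β : Iio α, ⋃ Z : range (fun y : G => X y β.1),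
        range (fun y : G => next Y Hm Z.1 y)
      have hW : #W < κ := by
        rw [card_iUnion_lt_iff_forall_of_isRegular hr ((hIio α).trans hμY)]
        intro β
        rw [card_iUnion_lt_iff_forall_of_isRegular hr (ih β.1 β.2)]
        intro Z
        have h1 : range (fun y : G => next Y Hm Z.1 y) ⊆
            insert none (some '' (Hm (Z.1 ∩ Y) ×ˢ Hm (Z.1 ∩ Y))) := by
          rintro _ ⟨y, rfl⟩
          rcases h2 : next Y Hm Z.1 y with _ | p
          · simp [h2]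
          · have h3 := next_some h2
            refine Or.inr ⟨p, ⟨h3.2.1, h3.2.2.1⟩, ?_⟩
            simp [h2]
        refine (mk_le_mk_of_subset h1).trans_lt ?_
        refine (mk_insert_le).trans_lt ?_
        exact add_lt_of_lt hκ0 (mk_image_le.trans_lt (hHH _)) (one_lt_aleph0.trans_le hκ0)
      have h2 : range (fun y : G => X y α) ⊆ range (fun q : Iio α → W =>
          {z : G | ∀ β : Iio α, ∀ p ∈ (q β).1, z ∈ mid p.1 p.2}) := by
        rintro _ ⟨y, rfl⟩
        refine ⟨fun β => ⟨seq y β.1, ?_⟩, ?_⟩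
        · rw [mem_iUnion]
          refine ⟨β, ?_⟩
          rw [mem_iUnion]
          exact ⟨⟨X y β.1, y, rfl⟩, y, (hseq y β.1).symm⟩
        · ext z
          constructor
          · intro h β hβ p hp
            exact h ⟨β, hβ⟩ p hp
          · intro h β p hp
            exact h β.1 β.2 p hp
      refine (mk_le_mk_of_subset h2).trans_lt (mk_range_le.trans_lt ?_)
      rw [← power_def]
      exact hpow _ hW _ (hIio α)
  -- the points whose sequence stops at a given level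
  have hD : ∀ α, #({y | y ∈ Y ∧ seq y α = none} : Set G) < κ := by
    intro α
    have h1 : {y | y ∈ Y ∧ seq y α = none} ⊆ ⋃ Z : range (fun y : G => X y α),
        (if #Y ≤ #(Z.1 ∩ Y : Set G) then Hm (Z.1 ∩ Y) ∪ ends (Hm (Z.1 ∩ Y)) else Z.1 ∩ Y) := by
      rintro y ⟨hyY, hy⟩
      rw [mem_iUnion]
      refine ⟨⟨X y α, y, rfl⟩, ?_⟩
      rw [hseq] at hy
      dsimp only
      split_ifs with h2
      · by_contra hcon
        rw [mem_union, not_or] at hcon
        obtain ⟨s, hs, t, ht, hst, hm⟩ := hHm3 (X y α ∩ Y) y ⟨hyX y α, hyY⟩ hcon.1 hcon.2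
        unfold next at hy
        rw [dif_pos ⟨h2, (s, t), hs, ht, hst, hm⟩] at hy
        exact absurd hy (by simp)
      · exact ⟨hyX y α, hyY⟩
    refine (mk_le_mk_of_subset h1).trans_lt ?_
    rw [card_iUnion_lt_iff_forall_of_isRegular hr (hN α)]
    intro Z
    split_ifs with h2
    · refine (mk_union_le _ _).trans_lt (add_lt_of_lt hκ0 (hHc _) ?_)
      unfold ends
      rw [← image_prod]
      exact mk_image_le.trans_lt (hHH _)
    · exact not_le.1 h2
  have hDU : #(⋃ α : Λ, ({y | y ∈ Y ∧ seq y α = none} : Set G) : Set G) < κ := by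
    rw [card_iUnion_lt_iff_forall_of_isRegular hr (by rw [mk_ord_toType]; exact hμY)]
    exact hD
  obtain ⟨y, hyY, hy⟩ : ∃ y ∈ Y, ∀ α, seq y α ≠ none := by
    by_contra hcon
    push Not at hcon
    refine absurd (mk_le_mk_of_subset (s := Y) (t := ⋃ α : Λ, {y | y ∈ Y ∧ seq y α = none}) ?_)
      (not_le.2 hDU)
    intro y hyY
    obtain ⟨α, hα⟩ := hcon y hyY
    exact mem_iUnion.2 ⟨α, hyY, hα⟩
  have hp : ∀ α, ∃ p, seq y α = some p := fun α => Option.ne_none_iff_exists'.1 (hy α)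
  choose p hp using hp
  have hp' : ∀ α, #Y ≤ #(X y α ∩ Y : Set G) ∧ (p α).1 ∈ Hm (X y α ∩ Y) ∧
      (p α).2 ∈ Hm (X y α ∩ Y) ∧ (p α).1 ≠ (p α).2 ∧ y ∈ mid (p α).1 (p α).2 := fun α =>
    next_some ((hseq y α).symm.trans (hp α))
  have hXm : ∀ α β z, β < α → z ∈ X y α → z ∈ mid (p β).1 (p β).2 := fun α β z h hz =>
    hz β h (p β) (hp β)
  have hne : Nonempty Λ := by
    rw [← mk_ne_zero_iff, mk_ord_toType]
    exact (aleph0_pos.trans_le hμ).ne'
  obtain ⟨o, ho⟩ : ∃ o : Λ, ∀ α, o ≤ α := by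
    obtain ⟨o, -, ho⟩ := WellFounded.has_min (wellFounded_lt (α := Λ)) univ univ_nonempty
    exact ⟨o, fun α => not_lt.1 (ho α (mem_univ α))⟩
  have hcomm : ∀ α z, (∀ β, β ≤ α → z ∈ mid (p β).1 (p β).2) → y⁻¹ * z ∈
      Subgroup.centralizer ((fun β => (p β).1⁻¹ * (p o).1) '' Iic α) := by
    intro α z hz
    rw [Subgroup.mem_centralizer_iff]
    rintro _ ⟨β, hβ, rfl⟩
    exact (mem_mid_iff (hz o (ho α)) (hp' o).2.2.2.2 (hp' β).2.2.2.2).1 (hz β hβ)
  refine ⟨fun α => (fun β => (p β).1⁻¹ * (p o).1) '' Iic α, fun α β hαβ => ⟨?_, ?_⟩,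
    fun α => ⟨?_, ?_⟩⟩
  · exact image_mono (Iic_subset_Iic.2 hαβ.le)
  · refine lt_of_le_of_ne (Subgroup.centralizer_le (image_mono (Iic_subset_Iic.2 hαβ.le))) ?_
    intro he
    have hsβ : (p β).1 ∈ X y β := ((hHm1 _) (hp' β).2.1).1
    have h1 := hcomm α (p β).1 (fun γ hγ => hXm β γ _ (lt_of_le_of_lt hγ hαβ) hsβ)
    rw [← he, Subgroup.mem_centralizer_iff] at h1
    have h2 := h1 _ ⟨β, mem_Iic.2 le_rfl, rfl⟩
    have h3 := (mem_mid_iff (hXm β o _ (lt_of_le_of_lt (ho α) hαβ) hsβ) (hp' o).2.2.2.2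
      (hp' β).2.2.2.2).2 h2
    have h4 : (p β).1 * (p β).1⁻¹ * (p β).1 = (p β).2 := h3
    rw [mul_inv_cancel, one_mul] at h4
    exact (hp' β).2.2.2.1 h4
  · refine mk_image_le.trans_lt ?_
    have h1 : (Iic α : Set Λ) = insert α (Iio α) := by
      ext β
      simp [le_iff_eq_or_lt]
    rw [h1]
    exact (mk_insert_le).trans_lt (add_lt_of_lt hμ (hIio α) (one_lt_aleph0.trans_le hμ))
  · obtain ⟨β, hβ⟩ : ∃ β, α < β := by
      by_contra hcon
      push Not at hcon
      have h1 : (univ : Set Λ) ⊆ insert α (Iio α) := by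
        intro β _
        rcases (hcon β).eq_or_lt with h | h
        · exact Or.inl h
        · exact Or.inr h
      have h2 := mk_le_mk_of_subset h1
      rw [mk_univ, mk_ord_toType] at h2
      exact absurd ((mk_insert_le).trans_lt
        (add_lt_of_lt hμ (hIio α) (one_lt_aleph0.trans_le hμ))) (not_lt.2 h2)
    refine (hp' β).1.trans ?_
    refine mk_le_of_injective (f := fun z => ⟨y⁻¹ * z.1,
      hcomm α z.1 (fun γ hγ => hXm β γ _ (lt_of_le_of_lt hγ hβ) z.2.1)⟩) ?_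
    intro a b hab
    have h3 : y⁻¹ * a.1 = y⁻¹ * b.1 := congrArg Subtype.val hab
    exact Subtype.ext (mul_left_cancel h3)

end Pool.Agent.Lib.MP_b18e8e_lc.Long
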