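import Pool.Agent.Lib.MP_b18e8e_lc.Defs

/-!
# No strange group has singular strong limit cardinality
-/

set_option autoImplicit false

namespace Pool.Agent.Lib.MP_b18e8e_lc.Singular

universe u

open Cardinal Set

variable {G : Type u} [Group G]

/-- The set of the pairs from `S` whose middle term is `x`. -/
def pat (x : G) (S : Set G) : Set (G × G) := {p | p.1 ∈ S ∧ p.2 ∈ S ∧ x * p.1⁻¹ * x = p.2}

open Classical in
/-- A point outside `S` with the pattern `p` over `S`, if there is one. -/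
noncomputable def wit (S : Set G) (p : Set (G × G)) : G :=
  if h : ∃ x, x ∉ S ∧ pat x S = p then h.choose else 1

theorem wit_spec {S : Set G} {y : G} (hy : y ∉ S) :
    wit S (pat y S) ∉ S ∧ pat (wit S (pat y S)) S = pat y S := by
  have h : ∃ x, x ∉ S ∧ pat x S = pat y S := ⟨y, hy, rfl⟩
  unfold wit
  rw [dif_pos h]
  exact h.choose_spec

/-- `Z` contains the witnesses for all its subsets of cardinality at most `τ`. -/
def IsClosedUnder (τ : Cardinal.{u}) (Z : Set G) : Prop :=
  ∀ S ⊆ Z, #S ≤ τ → ∀ p : Set (G × G), p ⊆ S ×ˢ S → wit S p ∈ Z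

/-- The least set that contains the witnesses for its subsets of cardinality at most `τ`. -/
def hull (G : Type u) [Group G] (τ : Cardinal.{u}) : Set G :=
  ⋂₀ {Z | IsClosedUnder τ Z}

theorem hull_closed (τ : Cardinal.{u}) : IsClosedUnder τ (hull G τ) := by
  intro S hS hc p hp Z hZ
  exact hZ S (hS.trans (sInter_subset_of_mem hZ)) hc p hp

theorem hull_mono {τ τ' : Cardinal.{u}} (h : τ ≤ τ') : hull G τ ⊆ hull G τ' := by
  apply sInter_subset_of_mem
  intro S hS hc p hp
  exact hull_closed τ' S hS (hc.trans h) p hp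

/-- Labels of the operations: a set of pairs of positions, or the constant. -/
abbrev Lab (τ : Type u) : Type u := Option (Set (τ × τ))

/-- The arities of the operations. -/
def arity (τ : Type u) : Lab τ → Type u
  | some _ => τ
  | none => PEmpty

/-- The evaluation of terms. -/
noncomputable def eval (G : Type u) [Group G] (τ : Type u) : WType (arity τ) → G
  | ⟨some q, f⟩ => wit (range fun i : τ => eval G τ (f i))
      ((fun i : τ × τ => (eval G τ (f i.1), eval G τ (f i.2))) '' q)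
  | ⟨none, _⟩ => wit ∅ ∅

theorem range_eval_closed (τ : Type u) : IsClosedUnder #τ (range (eval G τ)) := by
  intro S hS hc p hp
  rcases S.eq_empty_or_nonempty with rfl | hne
  · have : p = ∅ := by
      rw [empty_prod] at hp
      exact subset_empty_iff.1 hp
    subst this
    exact ⟨⟨none, PEmpty.elim⟩, by simp [eval]⟩
  · obtain ⟨g, hg⟩ : ∃ g : τ → S, Function.Surjective g := by
      have : Nonempty S := hne.to_subtype
      obtain ⟨e⟩ := hc
      exact ⟨Function.invFun e, Function.invFun_surjective e.injective⟩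
    have hlift : ∀ i : τ, ∃ w, eval G τ w = (g i : G) := fun i => hS (g i).2
    choose f hf using hlift
    refine ⟨⟨some {i | ((g i.1 : G), (g i.2 : G)) ∈ p}, f⟩, ?_⟩
    change wit (range fun i : τ => eval G τ (f i))
      ((fun i : τ × τ => (eval G τ (f i.1), eval G τ (f i.2))) ''
        {i | ((g i.1 : G), (g i.2 : G)) ∈ p}) = wit S p
    congr 1
    · ext x
      constructor
      · rintro ⟨i, rfl⟩
        change eval G τ (f i) ∈ S
        rw [hf]
        exact (g i).2
      · intro hx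
        obtain ⟨i, hi⟩ := hg ⟨x, hx⟩
        exact ⟨i, by change eval G τ (f i) = x; rw [hf, hi]⟩
    · ext ⟨a, b⟩
      constructor
      · rintro ⟨⟨i, j⟩, hij, he⟩
        have h1 : eval G τ (f i) = a := congrArg Prod.fst he
        have h2 : eval G τ (f j) = b := congrArg Prod.snd he
        rw [hf] at h1 h2
        subst h1 h2
        exact hij
      · intro hab
        have hab' := hp hab
        obtain ⟨i, hi⟩ := hg ⟨a, hab'.1⟩
        obtain ⟨j, hj⟩ := hg ⟨b, hab'.2⟩
        refine ⟨⟨i, j⟩, ?_, ?_⟩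
        · change ((g i : G), (g j : G)) ∈ p
          rw [hi, hj]
          exact hab
        · change (eval G τ (f i), eval G τ (f j)) = (a, b)
          rw [hf, hf, hi, hj]

theorem mk_WType_le {τ : Type u} (hτ : ℵ₀ ≤ #τ) : #(WType (arity τ)) ≤ 2 ^ #τ := by
  apply WType.cardinalMk_le_of_le
  have hinf : ℵ₀ ≤ (2 : Cardinal.{u}) ^ #τ := hτ.trans (cantor _).le
  calc (sum fun a : Lab τ => ((2 : Cardinal.{u}) ^ #τ) ^ #(arity τ a))
      ≤ sum fun _ : Lab τ => (2 : Cardinal.{u}) ^ #τ := by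
        apply sum_le_sum
        intro a
        cases a with
        | none =>
          have : #(arity τ none) = 0 := by
            change #PEmpty = 0
            simp
          rw [this, power_zero]
          exact one_le_aleph0.trans hinf
        | some q =>
          change ((2 : Cardinal.{u}) ^ #τ) ^ #τ ≤ _
          rw [← power_mul, mul_eq_self hτ]
    _ = #(Lab τ) * 2 ^ #τ := by rw [sum_const']
    _ ≤ 2 ^ #τ * 2 ^ #τ := by
        gcongr
        rw [mk_option, mk_set, mk_prod, lift_id, mul_eq_self hτ]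
        exact (add_one_eq hinf).le
    _ = 2 ^ #τ := mul_eq_self hinf

theorem mk_hull_le {τ : Cardinal.{u}} (hτ : ℵ₀ ≤ τ) : #(hull G τ) ≤ 2 ^ τ := by
  induction τ using Cardinal.inductionOn with
  | _ τ =>
    calc #(hull G #τ) ≤ #(range (eval G τ)) :=
          mk_le_mk_of_subset (sInter_subset_of_mem (range_eval_closed τ))
      _ ≤ #(WType (arity τ)) := mk_range_le
      _ ≤ 2 ^ #τ := mk_WType_le hτ

/-- A cofinal family of cardinals below a singular cardinal. -/
theorem exists_cofinal {κ : Cardinal.{u}} (hs : κ.IsSingular) :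
    ∃ (ι : Type u) (t : ι → Cardinal.{u}), (∀ i, t i < κ) ∧ (∀ i, #ι ≤ t i) ∧ (∀ i, ℵ₀ ≤ t i) ∧
      ∀ ν < κ, ∃ i, ν ≤ t i := by
  obtain ⟨S, hS, hS'⟩ := Order.exists_cof_eq κ.ord.ToType
  have hcof : #S < κ := by
    rw [hS', Ordinal.cof_toType]
    exact hs.cof_ord_lt
  have hlim : ℵ₀ < κ := by
    refine lt_of_le_of_ne hs.aleph0_le ?_
    rintro rfl
    exact not_isSingular_aleph0 hs
  refine ⟨S, fun s => max (#(Iio s.1)) (max #S ℵ₀), fun s => ?_, fun s => ?_, fun s => ?_,
    fun ν hν => ?_⟩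
  · exact max_lt (by simpa using mk_Iio_lt s.1) (max_lt hcof hlim)
  · exact (le_max_left _ _).trans (le_max_right _ _)
  · exact (le_max_right _ _).trans (le_max_right _ _)
  · have hν' : ν.ord < Ordinal.type (α := κ.ord.ToType) (· < ·) := by
      rw [Ordinal.type_toType]
      exact ord_lt_ord.2 hν
    obtain ⟨b, hb, hb'⟩ := hS (Ordinal.enum (α := κ.ord.ToType) (· < ·) ⟨ν.ord, hν'⟩)
    refine ⟨⟨b, hb⟩, le_trans ?_ (le_max_left _ _)⟩
    have h1 : #(Iio (Ordinal.enum (α := κ.ord.ToType) (· < ·) ⟨ν.ord, hν'⟩)) = ν := by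
      have := Ordinal.typein_enum (α := κ.ord.ToType) (· < ·) hν'
      have h2 := congrArg Ordinal.card this
      rw [card_ord] at h2
      exact h2
    rw [← h1]
    exact mk_le_mk_of_subset (Iio_subset_Iio hb')

/-- The main construction. -/
theorem exists_good {κ : Cardinal.{u}} (hs : κ.IsSingular) (hl : κ.IsStrongLimit)
    (hG : #G = κ) : ∃ H : Set G, IsGood H ∧ #H = κ := by
  classical
  obtain ⟨ι, t, ht1, ht2, ht3, ht4⟩ := exists_cofinal hs
  -- the index of a position
  have hidx : ∀ ξ : κ.ord.ToType, ∃ i, #(Iio ξ) ≤ t i ∧ ∀ j, #(Iio ξ) ≤ t j → t i ≤ t j := by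
    intro ξ
    obtain ⟨i₀, hi₀⟩ := ht4 (#(Iio ξ)) (by simpa using mk_Iio_lt ξ)
    obtain ⟨c, ⟨i, hi, hi'⟩, hmin⟩ := WellFounded.has_min (wellFounded_lt (α := Cardinal.{u}))
      {c | ∃ i, #(Iio ξ) ≤ t i ∧ t i = c} ⟨t i₀, i₀, hi₀, rfl⟩
    exact ⟨i, hi, fun j hj => by
      rw [hi']
      exact not_lt.1 (hmin (t j) ⟨j, hj, rfl⟩)⟩
  choose idx hidx1 hidx2 using hidx
  have hidx_mono : ∀ η ξ : κ.ord.ToType, η ≤ ξ → t (idx η) ≤ t (idx ξ) := fun η ξ h =>
    hidx2 η _ ((mk_le_mk_of_subset (Iio_subset_Iio h)).trans (hidx1 ξ))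
  -- the targets
  have hy : ∀ i, ∃ y : G, y ∉ hull G (t i) := by
    intro i
    by_contra hcon
    push Not at hcon
    have h1 : hull G (t i) = Set.univ := eq_univ_of_forall hcon
    have h2 := mk_hull_le (G := G) (ht3 i)
    rw [h1, mk_univ, hG] at h2
    exact absurd (hl.isStrongPrelimit (ht1 i)) (not_lt.2 h2)
  choose y hy using hy
  let V : Set G → Set G := fun C =>
    (⋃ i, (fun a => y i * a⁻¹ * y i) '' C) ∪ image2 (fun a b => a * b⁻¹ * a) C C
  let S : κ.ord.ToType → Set G → Set G := fun ξ C => C ∪ (V C ∩ hull G (t (idx ξ)))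
  let step : κ.ord.ToType → Set G → G := fun ξ C => wit (S ξ C) (pat (y (idx ξ)) (S ξ C))
  let x : κ.ord.ToType → G := IsWellFounded.fix (· < ·)
    (fun ξ ih => step ξ {g | ∃ η, ∃ h : η < ξ, ih η h = g})
  have hx : ∀ ξ, x ξ = step ξ (x '' Iio ξ) := by
    intro ξ
    have h1 : x ξ = step ξ {g | ∃ η, ∃ _ : η < ξ, x η = g} :=
      IsWellFounded.fix_eq (· < ·) (fun ξ (ih : ∀ η, η < ξ → G) =>
        step ξ {g | ∃ η, ∃ h : η < ξ, ih η h = g}) ξ
    rw [h1]
    congr 1
    ext g
    constructor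
    · rintro ⟨η, h, rfl⟩
      exact ⟨η, h, rfl⟩
    · rintro ⟨η, h, rfl⟩
      exact ⟨η, h, rfl⟩
  -- the basic properties of the construction
  have key : ∀ ξ, x ξ ∈ hull G (t (idx ξ)) ∧ x ξ ∉ S ξ (x '' Iio ξ) ∧
      pat (x ξ) (S ξ (x '' Iio ξ)) = pat (y (idx ξ)) (S ξ (x '' Iio ξ)) := by
    intro ξ
    induction ξ using WellFoundedLT.induction with
    | ind ξ ih =>
      have hC : x '' Iio ξ ⊆ hull G (t (idx ξ)) := by
        rintro _ ⟨η, hη, rfl⟩
        exact hull_mono (hidx_mono η ξ (le_of_lt hη)) (ih η hη).1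
      have hSsub : S ξ (x '' Iio ξ) ⊆ hull G (t (idx ξ)) :=
        union_subset hC inter_subset_right
      have hτ := ht3 (idx ξ)
      have hCcard : #(x '' Iio ξ) ≤ t (idx ξ) := mk_image_le.trans (hidx1 ξ)
      have hVcard : #(V (x '' Iio ξ)) ≤ t (idx ξ) := by
        refine (mk_union_le _ _).trans (add_le_of_le hτ ?_ ?_)
        · refine (mk_iUnion_le _).trans ?_
          refine (mul_le_mul' (ht2 (idx ξ)) (ciSup_le' fun i => ?_)).trans (mul_eq_self hτ).le
          exact mk_image_le.trans hCcard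
        · rw [← image_prod]
          refine mk_image_le.trans ?_
          rw [mk_congr (Equiv.Set.prod _ _), mk_prod, lift_id]
          exact (mul_le_mul' hCcard hCcard).trans (mul_eq_self hτ).le
      have hScard : #(S ξ (x '' Iio ξ)) ≤ t (idx ξ) :=
        (mk_union_le _ _).trans (add_le_of_le hτ hCcard
          ((mk_le_mk_of_subset inter_subset_left).trans hVcard))
      have hyS : y (idx ξ) ∉ S ξ (x '' Iio ξ) := fun h => hy (idx ξ) (hSsub h)
      have hw := wit_spec hyS
      have hpat : pat (y (idx ξ)) (S ξ (x '' Iio ξ)) ⊆ S ξ (x '' Iio ξ) ×ˢ S ξ (x '' Iio ξ) :=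
        fun p hp => ⟨hp.1, hp.2.1⟩
      have hmem := hull_closed (G := G) (t (idx ξ)) _ hSsub hScard _ hpat
      rw [hx ξ]
      exact ⟨hmem, hw.1, hw.2⟩
  have hnot : ∀ ξ η, η < ξ → x ξ ≠ x η := by
    intro ξ η h he
    exact (key ξ).2.1 (Or.inl ⟨η, h, he.symm⟩)
  have hinj : Function.Injective x := by
    intro η ξ h
    rcases lt_trichotomy η ξ with h1 | h1 | h1
    · exact (hnot ξ η h1 h.symm).elim
    · exact h1
    · exact (hnot η ξ h1 h).elim
  -- no element is obtained from two earlier ones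
  have hend : ∀ ξ η ζ, η < ξ → ζ < ξ → x ξ ≠ x η * (x ζ)⁻¹ * x η := by
    intro ξ η ζ h1 h2 he
    apply (key ξ).2.1
    refine Or.inr ⟨Or.inr ⟨x η, ⟨η, h1, rfl⟩, x ζ, ⟨ζ, h2, rfl⟩, he.symm⟩, (key ξ).1⟩
  have hpart : ∀ ξ η i, η < ξ → x ξ ≠ y i * (x η)⁻¹ * y i := by
    intro ξ η i h1 he
    apply (key ξ).2.1
    refine Or.inr ⟨Or.inl ?_, (key ξ).1⟩
    rw [mem_iUnion]
    exact ⟨i, x η, ⟨η, h1, rfl⟩, he.symm⟩
  refine ⟨range x, ?_, ?_⟩
  · rintro _ ⟨α, rfl⟩ _ ⟨β, rfl⟩ _ ⟨γ, rfl⟩ h
    by_contra hne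
    have hc : x γ = x β * (x α)⁻¹ * x β := by
      rw [mul_assoc, h]
      group
    have ha : x α = x β * (x γ)⁻¹ * x β := by
      rw [hc]
      group
    have hαγ : α ≠ γ := fun h => hne (by rw [h])
    have hαβ : α ≠ β := by
      rintro rfl
      apply hne
      rw [hc]
      group
    have hγβ : γ ≠ β := by
      rintro rfl
      apply hne
      rw [ha]
      group
    rcases lt_or_gt_of_ne hαβ with h1 | h1
    · rcases lt_or_gt_of_ne hγβ with h2 | h2
      · -- the middle term is the last one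
        have hp : (x α, x γ) ∈ pat (x β) (S β (x '' Iio β)) :=
          ⟨Or.inl ⟨α, h1, rfl⟩, Or.inl ⟨γ, h2, rfl⟩, hc.symm⟩
        rw [(key β).2.2] at hp
        have he : y (idx β) * (x α)⁻¹ * y (idx β) = x γ := hp.2.2
        rcases lt_or_gt_of_ne hαγ with h3 | h3
        · exact hpart γ α _ h3 he.symm
        · refine hpart α γ (idx β) h3 ?_
          rw [← he]
          group
      · exact hend γ β α h2 (h1.trans h2) hc
    · rcases lt_or_gt_of_ne hαγ with h3 | h3
      · exact hend γ β α (h1.trans h3) h3 hc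
      · exact hend α β γ h1 h3 ha
  · rw [mk_range_eq x hinj, mk_ord_toType]

/-- There is no strange group whose cardinality is a singular strong limit cardinal. -/
theorem not_existsStrange (κ : Cardinal.{u}) (hs : κ.IsSingular) (hl : κ.IsStrongLimit) :
    ¬ ExistsStrange κ := by
  rintro ⟨G, _, hG, hstr⟩
  obtain ⟨H, hH, hc⟩ := exists_good hs hl hG
  exact hstr H hH hc

end Pool.Agent.Lib.MP_b18e8e_lc.Singular
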